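import Pool.Agent.Run7.h782.GS.Defs
import Pool.Agent.Run7.h782.GD.Bas

/-!
Elementary bounds of the Besov norms with the sum norm.
-/

set_option autoImplicit false

open MeasureTheory Set Filter Topology
open scoped ENNReal

namespace Pool.Agent.Run7.h744.GS

open H459R3.NS Pool.Agent.Run7.h782 Pool.Agent.Run7.h782.GD Pool.Agent.Run7.h782.GS

theorem ht_pos (s : ℝ) (k : K3) : 0 < ht s k := Real.exp_pos _

theorem ht_cont (k : K3) : Continuous fun s => ht s k := by
  unfold ht
  exact Real.continuous_exp.comp (continuous_const.mul continuous_id).neg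

/-- `√s |k| e^{-4π²|k|²s} ≤ 1`. -/
theorem sqrt_len_ht_le {s : ℝ} (hs : 0 < s) (k : K3) : Real.sqrt s * len k * ht s k ≤ 1 := by
  have hpi := Real.pi_pos
  set x : ℝ := Real.sqrt s * len k with hx
  have hx0 : 0 ≤ x := mul_nonneg (Real.sqrt_nonneg _) (len_nonneg _)
  have hx2 : x ^ 2 = GD.sq k * s := by
    rw [hx, mul_pow, Real.sq_sqrt hs.le, len_sq]
    ring
  have h1 : ht s k = Real.exp (-(4 * Real.pi ^ 2 * x ^ 2)) := by
    rw [ht, hx2]
    congr 1
    ring
  rw [h1, Real.exp_neg]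
  rw [← div_eq_mul_inv, div_le_one (Real.exp_pos _)]
  have h2 := Real.add_one_le_exp (4 * Real.pi ^ 2 * x ^ 2)
  have h3 : 1 ≤ Real.pi ^ 2 := by nlinarith [Real.pi_gt_three]
  nlinarith [sq_nonneg (x - 1), mul_le_mul_of_nonneg_right h3 (sq_nonneg x)]

/-- One mode. -/
theorem lintegral_mode {c : ℝ} (hc : 0 ≤ c) {k : K3} (hk : k ≠ 0) :
    ∫⁻ s in Ioi (0 : ℝ), ENNReal.ofReal (Real.sqrt s * (ht s k * c)) / ENNReal.ofReal s
      ≤ ENNReal.ofReal (c / len k) := by
  have hpi := Real.pi_pos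
  have hq := sq_pos' hk
  set b : ℝ := 4 * Real.pi ^ 2 * GD.sq k with hb
  have hb0 : 0 < b := by positivity
  have h1 : ∀ s ∈ Ioi (0 : ℝ), ENNReal.ofReal (Real.sqrt s * (ht s k * c)) / ENNReal.ofReal s
      = ENNReal.ofReal (c * (s ^ ((1 / 2 : ℝ) - 1) * Real.exp (-(b * s)))) := by
    intro s hs
    have hs' : 0 < s := hs
    rw [← ENNReal.ofReal_div_of_pos hs']
    congr 1
    rw [ht, ← hb, Real.sqrt_eq_rpow, Real.rpow_sub hs', Real.rpow_one]
    ring
  rw [setLIntegral_congr_fun measurableSet_Ioi h1]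
  have hint : IntegrableOn (fun s : ℝ => s ^ ((1 / 2 : ℝ) - 1) * Real.exp (-(b * s))) (Ioi 0) := by
    have := integrableOn_rpow_mul_exp_neg_mul_rpow (p := 1) (s := (1 / 2 : ℝ) - 1) (b := b)
      (by norm_num) (by norm_num) hb0
    refine this.congr_fun (fun s _ => ?_) measurableSet_Ioi
    simp only [Real.rpow_one, neg_mul]
  rw [← ofReal_integral_eq_lintegral_ofReal (hint.const_mul c)]
  · refine ENNReal.ofReal_le_ofReal ?_
    rw [integral_const_mul, Real.integral_rpow_mul_exp_neg_mul_Ioi (by norm_num) hb0,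
      Real.Gamma_one_half_eq, div_eq_mul_one_div c]
    refine mul_le_mul_of_nonneg_left ?_ hc
    have h2 : (1 / b) ^ (1 / 2 : ℝ) = 1 / (2 * Real.pi * len k) := by
      rw [← Real.sqrt_eq_rpow, Real.sqrt_div zero_le_one, Real.sqrt_one]
      congr 1
      rw [hb, ← len_sq]
      rw [show 4 * Real.pi ^ 2 * len k ^ 2 = (2 * Real.pi * len k) ^ 2 by ring]
      exact Real.sqrt_sq (by have := len_nonneg k; positivity)
    rw [h2]
    have hl := len_pos hk
    have h3 : Real.sqrt Real.pi ≤ 2 * Real.pi := by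
      rw [Real.sqrt_le_left (by positivity)]
      nlinarith [Real.pi_gt_three]
    rw [div_mul_eq_mul_div, one_mul, div_le_div_iff₀ (by positivity) hl]
    nlinarith [mul_le_mul_of_nonneg_right h3 hl.le]
  · filter_upwards [self_mem_ae_restrict measurableSet_Ioi] with s hs
    have hs' : 0 < s := hs
    have : 0 ≤ s ^ ((1 / 2 : ℝ) - 1) := Real.rpow_nonneg hs'.le _
    positivity

theorem bes_one (q : ℝ) (hq : 2 < q) (c : K3 → ℝ) (hc : ∀ k, 0 ≤ c k) (h0 : c 0 = 0)
    (hs : Summable c) : besC q c ≤ ENNReal.ofReal (1 * (∑' k, c k / len k) ^ q) := by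
  have hX : Summable fun k => c k / len k := by
    refine Summable.of_nonneg_of_le (fun k => div_nonneg (hc k) (len_nonneg k)) (fun k => ?_) hs
    by_cases hk : k = 0
    · subst hk
      simp [h0]
    · exact div_le_self (hc k) (one_le_len hk)
  set X : ℝ := ∑' k, c k / len k with hXd
  have hX0 : 0 ≤ X := tsum_nonneg fun k => div_nonneg (hc k) (len_nonneg k)
  have eX : ENNReal.ofReal X = ∑' k, ENNReal.ofReal (c k / len k) :=
    ENNReal.ofReal_tsum_of_nonneg (fun k => div_nonneg (hc k) (len_nonneg k)) hX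
  set F : ℝ → ℝ≥0∞ := fun s => ∑' k, ENNReal.ofReal (Real.sqrt s * (ht s k * c k)) with hF
  have eF : ∀ s, ENNReal.ofReal (Real.sqrt s) * ∑' k, ENNReal.ofReal (ht s k * c k) = F s := by
    intro s
    rw [← ENNReal.tsum_mul_left]
    exact tsum_congr fun k => (ENNReal.ofReal_mul (Real.sqrt_nonneg _)).symm
  have hFX : ∀ s ∈ Ioi (0 : ℝ), F s ≤ ENNReal.ofReal X := by
    intro s hs'
    rw [eX]
    refine ENNReal.tsum_le_tsum fun k => ENNReal.ofReal_le_ofReal ?_
    by_cases hk : k = 0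
    · subst hk
      simp [h0]
    have hl := len_pos hk
    rw [le_div_iff₀ hl]
    have := mul_le_mul_of_nonneg_right (sqrt_len_ht_le hs' k) (hc k)
    linarith
  have hFm : ∀ k, Measurable fun s : ℝ => ENNReal.ofReal (Real.sqrt s * (ht s k * c k)) := by
    intro k
    exact ENNReal.measurable_ofReal.comp
      ((Real.continuous_sqrt.mul ((ht_cont k).mul continuous_const)).measurable)
  have step : ∫⁻ s in Ioi (0 : ℝ), F s / ENNReal.ofReal s ≤ ENNReal.ofReal X := by
    have e1 : ∀ s : ℝ, F s / ENNReal.ofReal s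
        = ∑' k, ENNReal.ofReal (Real.sqrt s * (ht s k * c k)) / ENNReal.ofReal s := by
      intro s
      rw [hF, div_eq_mul_inv, ← ENNReal.tsum_mul_right]
      exact tsum_congr fun k => (div_eq_mul_inv _ _).symm
    simp_rw [e1]
    have hm : ∀ k, AEMeasurable (fun s : ℝ =>
        ENNReal.ofReal (Real.sqrt s * (ht s k * c k)) / ENNReal.ofReal s)
        (volume.restrict (Ioi 0)) := fun k =>
      ((hFm k).div ENNReal.measurable_ofReal).aemeasurable
    rw [lintegral_tsum hm, eX]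
    refine ENNReal.tsum_le_tsum fun k => ?_
    by_cases hk : k = 0
    · subst hk
      simp [h0]
    · exact lintegral_mode (hc k) hk
  have h1 : ∀ s ∈ Ioi (0 : ℝ), F s ^ q / ENNReal.ofReal s
      ≤ ENNReal.ofReal X ^ (q - 1) * (F s / ENNReal.ofReal s) := by
    intro s hs'
    have e2 : F s ^ q = F s ^ (q - 1) * F s := by
      have := ENNReal.rpow_add_of_nonneg (x := F s) (q - 1) 1 (by linarith) zero_le_one
      rw [sub_add_cancel, ENNReal.rpow_one] at this
      exact this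
    rw [e2, ← mul_div_assoc]
    refine ENNReal.div_le_div_right ?_ _
    exact mul_le_mul' (ENNReal.rpow_le_rpow (hFX s hs') (by linarith)) le_rfl
  calc besC q c = ∫⁻ s in Ioi (0 : ℝ), F s ^ q / ENNReal.ofReal s := by
        rw [besC]
        simp_rw [eF]
    _ ≤ ∫⁻ s in Ioi (0 : ℝ), ENNReal.ofReal X ^ (q - 1) * (F s / ENNReal.ofReal s) :=
        setLIntegral_mono' measurableSet_Ioi h1
    _ = ENNReal.ofReal X ^ (q - 1) * ∫⁻ s in Ioi (0 : ℝ), F s / ENNReal.ofReal s := by
        refine lintegral_const_mul _ ?_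
        exact (Measurable.ennreal_tsum hFm).div ENNReal.measurable_ofReal
    _ ≤ ENNReal.ofReal X ^ (q - 1) * ENNReal.ofReal X := mul_le_mul' le_rfl step
    _ = ENNReal.ofReal (1 * X ^ q) := by
        have := ENNReal.rpow_add_of_nonneg (x := ENNReal.ofReal X) (q - 1) 1 (by linarith)
          zero_le_one
        rw [sub_add_cancel, ENNReal.rpow_one] at this
        rw [← this, one_mul, ENNReal.ofReal_rpow_of_nonneg hX0 (by linarith)]

theorem bes_two (q : ℝ) (hq : 2 < q) (c : K3 → ℝ) (h : ℝ → ℝ) (δ H : ℝ) (hδ : 0 ≤ δ)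
    (hcont : Continuous h) (hle : ∀ s, 0 < s → h s ≤ δ / Real.sqrt s)
    (hH : ∀ T, 0 ≤ T → ∫ s in (0 : ℝ)..T, h s ^ 2 ≤ H) (hc : ∀ k, 0 ≤ c k)
    (hb : ∀ s, 0 < s → ∀ A : Finset K3, ∑ k ∈ A, ht s k * c k ≤ h s) :
    besC q c ≤ ENNReal.ofReal (δ ^ (q - 2) * H) := by
  have h0 : ∀ s, 0 < s → 0 ≤ h s := fun s hs => by simpa using hb s hs ∅
  have hS : ∀ s, 0 < s → ∑' k, ENNReal.ofReal (ht s k * c k) ≤ ENNReal.ofReal (h s) := by
    intro s hs
    refine ENNReal.summable.tsum_le_of_sum_le fun A => ?_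
    rw [← ENNReal.ofReal_sum_of_nonneg fun k _ => mul_nonneg (ht_pos s k).le (hc k)]
    exact ENNReal.ofReal_le_ofReal (hb s hs A)
  have hint : IntegrableOn (fun s => h s ^ 2) (Ioi 0) := by
    refine integrableOn_Ioi_of_intervalIntegral_norm_bounded (l := atTop) (b := fun n : ℝ => n)
      H 0 (fun i => ?_) tendsto_id ?_
    · exact ((hcont.pow 2).integrableOn_Icc (a := 0) (b := i)).mono_set Ioc_subset_Icc_self
    · filter_upwards [eventually_ge_atTop (0 : ℝ)] with T hT
      have : ∀ s, ‖h s ^ 2‖ = h s ^ 2 := fun s => by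
        rw [Real.norm_eq_abs, abs_of_nonneg (sq_nonneg _)]
      simp_rw [this]
      exact hH T hT
  have hIH : ∫ s in Ioi (0 : ℝ), h s ^ 2 ≤ H := by
    refine le_of_tendsto (intervalIntegral_tendsto_integral_Ioi 0 hint tendsto_id) ?_
    filter_upwards [eventually_ge_atTop (0 : ℝ)] with T hT
    exact hH T hT
  have hpt : ∀ s ∈ Ioi (0 : ℝ),
      (ENNReal.ofReal (Real.sqrt s) * ∑' k, ENNReal.ofReal (ht s k * c k)) ^ q / ENNReal.ofReal s
        ≤ ENNReal.ofReal (δ ^ (q - 2) * h s ^ 2) := by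
    intro s hs
    have hs' : 0 < s := hs
    have hsq : 0 < Real.sqrt s := Real.sqrt_pos.mpr hs'
    have hx0 : 0 ≤ Real.sqrt s * h s := mul_nonneg hsq.le (h0 s hs')
    have hxδ : Real.sqrt s * h s ≤ δ := by
      have := hle s hs'
      rw [le_div_iff₀ hsq] at this
      linarith
    calc (ENNReal.ofReal (Real.sqrt s) * ∑' k, ENNReal.ofReal (ht s k * c k)) ^ q
          / ENNReal.ofReal s
        ≤ (ENNReal.ofReal (Real.sqrt s) * ENNReal.ofReal (h s)) ^ q / ENNReal.ofReal s := by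
          refine ENNReal.div_le_div_right (ENNReal.rpow_le_rpow ?_ (by linarith)) _
          exact mul_le_mul' le_rfl (hS s hs')
      _ = ENNReal.ofReal ((Real.sqrt s * h s) ^ q / s) := by
          rw [← ENNReal.ofReal_mul hsq.le, ENNReal.ofReal_rpow_of_nonneg hx0 (by linarith),
            ENNReal.ofReal_div_of_pos hs']
      _ ≤ ENNReal.ofReal (δ ^ (q - 2) * h s ^ 2) := by
          refine ENNReal.ofReal_le_ofReal ?_
          rw [div_le_iff₀ hs']
          have e : (Real.sqrt s * h s) ^ q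
              = (Real.sqrt s * h s) ^ (q - 2) * (Real.sqrt s * h s) ^ (2 : ℝ) := by
            rw [← Real.rpow_add_of_nonneg hx0 (by linarith) (by norm_num), sub_add_cancel]
          rw [e, Real.rpow_two, mul_pow, Real.sq_sqrt hs'.le]
          have h1 : (Real.sqrt s * h s) ^ (q - 2) ≤ δ ^ (q - 2) :=
            Real.rpow_le_rpow hx0 hxδ (by linarith)
          calc (Real.sqrt s * h s) ^ (q - 2) * (s * h s ^ 2)
              ≤ δ ^ (q - 2) * (s * h s ^ 2) :=
                mul_le_mul_of_nonneg_right h1 (by positivity)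
            _ = _ := by ring
  have hδq : 0 ≤ δ ^ (q - 2) := Real.rpow_nonneg hδ _
  calc besC q c ≤ ∫⁻ s in Ioi (0 : ℝ), ENNReal.ofReal (δ ^ (q - 2) * h s ^ 2) :=
        setLIntegral_mono' measurableSet_Ioi hpt
    _ = ENNReal.ofReal (∫ s in Ioi (0 : ℝ), δ ^ (q - 2) * h s ^ 2) := by
        rw [← ofReal_integral_eq_lintegral_ofReal (hint.const_mul _)]
        exact Eventually.of_forall fun s => mul_nonneg hδq (sq_nonneg _)
    _ ≤ ENNReal.ofReal (δ ^ (q - 2) * H) := by
        refine ENNReal.ofReal_le_ofReal ?_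
        rw [integral_const_mul]
        exact mul_le_mul_of_nonneg_left hIH hδq

/-- **Piece P7.** -/
theorem stmBes : StmBes := fun q hq =>
  ⟨⟨1, one_pos, fun c hc h0 hs => bes_one q hq c hc h0 hs⟩,
    fun c h δ H hδ hc hcont hle hH hb => bes_two q hq c h δ H hδ hcont hle hH hc hb⟩

end Pool.Agent.Run7.h744.GS
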