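import Pool.Agent.Run7.h782.GS.Defs2
import Pool.Agent.Run7.h32.GD.Fou
import Pool.Agent.Run7.h744.GS.P7

/-!
From the iteration in coefficients to fields: piece P9.
-/

set_option autoImplicit false

open MeasureTheory Set Filter Topology
open scoped ContDiff ENNReal

namespace Pool.Agent.Run7.h744.GS

open H459R3.NS Pool.Agent.Run7 Pool.Agent.Run7.h782.GD Pool.Agent.Run7.h782.GS

/-! ### Besov norms of coefficients -/

theorem hm_eq (s : ℝ) (k : K3) : h32.GD.hm s k = ht s k := rfl

theorem measurable_integrand (q : ℝ) (c : K3 → ℝ) : Measurable fun s : ℝ =>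
    (ENNReal.ofReal (Real.sqrt s) * ∑' k, ENNReal.ofReal (ht s k * c k)) ^ q / ENNReal.ofReal s := by
  refine Measurable.div (Measurable.pow_const ?_ q) ENNReal.measurable_ofReal
  refine Measurable.mul (ENNReal.measurable_ofReal.comp Real.continuous_sqrt.measurable) ?_
  refine Measurable.ennreal_tsum fun k => ?_
  exact ENNReal.measurable_ofReal.comp ((ht_cont k).mul continuous_const).measurable

theorem besC_mono {q : ℝ} (hq : 0 ≤ q) {c d : K3 → ℝ} (h : ∀ k, c k ≤ d k) :
    besC q c ≤ besC q d := by
  refine lintegral_mono fun s => ?_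
  refine ENNReal.div_le_div_right (ENNReal.rpow_le_rpow ?_ hq) _
  refine mul_le_mul' le_rfl (ENNReal.tsum_le_tsum fun k => ENNReal.ofReal_le_ofReal ?_)
  exact mul_le_mul_of_nonneg_left (h k) (ht_pos s k).le

theorem besC_add_le {q : ℝ} (hq : 1 ≤ q) {c d : K3 → ℝ} (hc : ∀ k, 0 ≤ c k) (hd : ∀ k, 0 ≤ d k) :
    besC q (fun k => c k + d k) ≤ 2 ^ (q - 1) * (besC q c + besC q d) := by
  have hm : Measurable fun s : ℝ =>
      (ENNReal.ofReal (Real.sqrt s) * ∑' k, ENNReal.ofReal (ht s k * c k)) ^ q / ENNReal.ofReal s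
      + (ENNReal.ofReal (Real.sqrt s) * ∑' k, ENNReal.ofReal (ht s k * d k)) ^ q
        / ENNReal.ofReal s := (measurable_integrand q c).add (measurable_integrand q d)
  rw [besC, besC, besC, ← lintegral_add_left (measurable_integrand q c),
    ← lintegral_const_mul _ hm]
  refine lintegral_mono fun s => ?_
  have e : ∑' k, ENNReal.ofReal (ht s k * (c k + d k))
      = (∑' k, ENNReal.ofReal (ht s k * c k)) + ∑' k, ENNReal.ofReal (ht s k * d k) := by
    rw [← ENNReal.tsum_add]
    refine tsum_congr fun k => ?_
    rw [mul_add, ENNReal.ofReal_add (mul_nonneg (ht_pos s k).le (hc k))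
      (mul_nonneg (ht_pos s k).le (hd k))]
  dsimp only
  rw [e, mul_add, ← ENNReal.add_div, ← mul_div_assoc]
  refine ENNReal.div_le_div_right ?_ _
  exact ENNReal.rpow_add_le_mul_rpow_add_rpow _ _ hq

theorem bes_le_besC {q : ℝ} (hq : 0 ≤ q) {f : V → ℝ} {c : K3 → ℝ} (hc : Summable c)
    (h : ∀ k, ‖fr f k‖ ≤ c k) : bes q f ≤ besC q c := by
  have hs : Summable fun k => ‖fr f k‖ := Summable.of_nonneg_of_le (fun _ => norm_nonneg _) h hc
  have hc0 : ∀ k, 0 ≤ c k := fun k => (norm_nonneg _).trans (h k)
  refine setLIntegral_mono' measurableSet_Ioi fun s hs' => ?_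
  have hs0 : 0 < s := hs'
  refine ENNReal.div_le_div_right (ENNReal.rpow_le_rpow ?_ hq) _
  refine iSup_le fun x => ?_
  rw [ENNReal.ofReal_mul (Real.sqrt_nonneg _)]
  refine mul_le_mul' le_rfl ?_
  have h1 := h32.GD.heat_bd hs hs0.le x
  have hsc : Summable fun k => ht s k * c k :=
    Summable.of_nonneg_of_le (fun k => mul_nonneg (ht_pos s k).le (hc0 k))
      (fun k => mul_le_of_le_one_left (hc0 k) (h32.GD.hm_le_one hs0.le k)) hc
  rw [← ENNReal.ofReal_tsum_of_nonneg (fun k => mul_nonneg (ht_pos s k).le (hc0 k)) hsc]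
  refine ENNReal.ofReal_le_ofReal (h1.trans ?_)
  refine Summable.tsum_le_tsum (fun k => mul_le_mul_of_nonneg_left (h k) (ht_pos s k).le) ?_ hsc
  exact Summable.of_nonneg_of_le (fun k => mul_nonneg (ht_pos s k).le (norm_nonneg _))
    (fun k => mul_le_mul_of_nonneg_left (h k) (ht_pos s k).le) hsc

/-! ### Characters -/

theorem abs_ph_le (k : K3) (m : V) : |ph k m| ≤ 3 * len k * ‖m‖ := by
  unfold ph
  refine (Finset.abs_sum_le_sum_abs _ _).trans ?_
  have : ∀ j ∈ Finset.univ, |(k j : ℝ) * m j| ≤ len k * ‖m‖ := by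
    intro j _
    rw [abs_mul]
    exact mul_le_mul (h782.GD.abs_le_len k j) (norm_le_pi_norm m j) (abs_nonneg _)
      (h782.GD.len_nonneg _)
  refine (Finset.sum_le_sum this).trans (le_of_eq ?_)
  simp
  ring

theorem norm_ee_sub_one (k : K3) (y : V) : ‖ee k y - 1‖ ≤ 2 * Real.pi * |ph k y| := by
  have h : ee k y = Complex.exp (Complex.I * ((2 * Real.pi * ph k y : ℝ) : ℂ)) := by
    rw [ee]; congr 1; push_cast; ring
  rw [h]
  refine (Real.norm_exp_I_mul_ofReal_sub_one_le).trans (le_of_eq ?_)
  rw [Real.norm_eq_abs, abs_mul, abs_of_pos (by positivity : (0 : ℝ) < 2 * Real.pi)]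

theorem ph_smul (k : K3) (t : ℝ) (y : V) : ph k (t • y) = t * ph k y := by
  unfold ph
  rw [Finset.mul_sum]
  exact Finset.sum_congr rfl fun j _ => by
    rw [Pi.smul_apply, smul_eq_mul]
    ring

theorem S_shift (c : K3 → ℂ) (x y : V) : S c (x + y) = S (fun k => ee k y * c k) x := by
  unfold S
  refine tsum_congr fun k => ?_
  rw [ee_add]
  ring

theorem len_le_N (k : K3) : len k ≤ 2 * N k := by
  have h : len k ^ 2 ≤ (2 * (N k : ℝ)) ^ 2 := by
    rw [len_sq, h782.GD.sq]
    have h1 : ∀ j, (k j : ℝ) ^ 2 ≤ (N k : ℝ) ^ 2 := by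
      intro j
      have h := (N_le_iff k (N k)).1 le_rfl j
      have h1 : |(k j : ℝ)| ≤ N k := by exact_mod_cast h
      rw [← sq_abs (k j : ℝ)]
      exact pow_le_pow_left₀ (abs_nonneg _) h1 2
    have h2 : ∑ j, (k j : ℝ) ^ 2 ≤ ∑ _j : Fin 3, (N k : ℝ) ^ 2 :=
      Finset.sum_le_sum fun j _ => h1 j
    rw [Finset.sum_const, Finset.card_univ, Fintype.card_fin, nsmul_eq_mul] at h2
    push_cast at h2
    nlinarith [sq_nonneg (N k : ℝ)]
  exact (abs_le_of_sq_le_sq' h (by positivity)).2

theorem Rap.len_summable {a : K3 → ℂ} (h : Rap a) : Summable fun k => len k * ‖a k‖ := by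
  refine Summable.of_nonneg_of_le (fun k => mul_nonneg (h782.GD.len_nonneg k) (norm_nonneg _))
    (fun k => ?_) ((h 1).mul_left 2)
  rw [pow_one]
  have := mul_le_mul_of_nonneg_right (len_le_N k) (norm_nonneg (a k))
  linarith

/-- **Piece P9.** -/
theorem init (hIter : StmIter) (hTg : StmTg) (hP2 : StmPhys2) : StmInit := by
  intro ν hν u₀ hu0 hper hdiv U P hU hmean δ hδ
  have hpi := Real.pi_pos
  have hsp : ∀ i, SP (fun x => u₀ x i) := fun i =>
    ⟨contDiff_pi.1 hu0 i, fun j x => congrFun (hper j x) i⟩
  have hrap : ∀ i, Rap (fr (fun x => u₀ x i)) := fun i => rap_fr (hsp i)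
  have hfrs : ∀ i, Summable (fr (fun x => u₀ x i)) := fun i => (hrap i).summable
  set m : V := fun i => ∫ y in cube, u₀ y i with hm'
  have hm0 : ∀ i, fr (fun x => u₀ x i) 0 = ((m i : ℝ) : ℂ) := fun i => h32.GD.fr_zero_eq _
  -- the shifted target
  set U' : ℝ → V → V := fun t x => -m + U t (x - t • (-m)) with hU'
  have hUs : ∀ T, IsSol ν T U' (fun t x => P t (x - t • (-m))) := fun T =>
    h32.GD.galilei (hU T) (-m)
  have hU0c : ∀ i, Continuous fun x => U 0 x i := fun i =>
    ((hU 1).sp (t := 0) ⟨le_rfl, one_pos⟩ i).smooth.continuous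
  have hmean' : ∀ i, ∫ x in cube, U' 0 x i = 0 := by
    intro i
    have e : ∀ x, U' 0 x i = -(m i) + U 0 x i := by
      intro x
      simp only [hU', zero_smul, sub_zero, Pi.add_apply, Pi.neg_apply]
    simp_rw [e]
    have := cube_finite
    rw [integral_add (integrable_const _) (integrableOn_cube (hU0c i)), hmean i]
    simp only [integral_const, measureReal_restrict_apply_univ, smul_eq_mul]
    rw [Measure.real, volume_cube]
    simp [hm']
  have hTgU := hTg ν hν U' _ hUs hmean'
  -- the coefficients of the datum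
  set c : Cf := fun k => if k = 0 then 0 else vf u₀ k with hc
  have hcs : ∀ k, ‖c k‖ ≤ ∑ i, ‖fr (fun x => u₀ x i) k‖ := by
    intro k
    simp only [hc]
    split_ifs with hk
    · rw [norm_zero]
      exact Finset.sum_nonneg fun _ _ => norm_nonneg _
    · refine (pi_norm_le_iff_of_nonneg (Finset.sum_nonneg fun _ _ => norm_nonneg _)).2 fun i => ?_
      exact Finset.single_le_sum (f := fun i => ‖fr (fun x => u₀ x i) k‖)
        (fun _ _ => norm_nonneg _) (Finset.mem_univ i)
  have hcS : Summable fun k => ‖c k‖ :=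
    Summable.of_nonneg_of_le (fun _ => norm_nonneg _) hcs
      (summable_sum (s := Finset.univ) fun i _ => (hfrs i).norm)
  have hcL : Summable fun k => len k * ‖c k‖ := by
    refine Summable.of_nonneg_of_le
      (fun k => mul_nonneg (h782.GD.len_nonneg k) (norm_nonneg _)) (fun k => ?_)
      (summable_sum (s := Finset.univ) fun i _ => Rap.len_summable (hrap i))
    refine (mul_le_mul_of_nonneg_left (hcs k) (h782.GD.len_nonneg k)).trans (le_of_eq ?_)
    rw [Finset.mul_sum]
  have hc0 : c 0 = 0 := by simp [hc]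
  have hch : Herm c := by
    intro k i
    simp only [hc]
    by_cases hk : k = 0
    · subst hk
      simp
    · rw [if_neg (neg_ne_zero.2 hk), if_neg hk]
      exact h32.GD.fr_neg _ _
  have hcd : Dv c := by
    intro k
    simp only [hc]
    split_ifs with hk
    · exact kd_zero_right k
    · exact fr_div hsp hdiv k
  obtain ⟨b, hb, hbes, hLr, hclose⟩ := hIter ν hν _ hTgU c hc0 hch hcd hcS δ hδ
  obtain ⟨p, hp⟩ := hP2 ν b hb m
  -- facts for positive times
  have hhalf : ∀ t : ℝ, t / 2 + t / 2 = t := fun t => by ring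
  have hbt : ∀ t, 0 < t → (Summable fun k => ‖b t k‖) ∧ Herm (b t) ∧ b t 0 = 0 := by
    intro t ht
    have H := hb (t / 2) (by positivity)
    obtain ⟨μ, hμ, C, hC⟩ := H.dec
    have h0 : (0 : ℝ) ≤ t / 2 := by positivity
    refine ⟨?_, ?_, ?_⟩
    · refine Summable.of_nonneg_of_le (fun _ => norm_nonneg _) (fun k => ?_)
        ((h32.GD.summable_exp hμ).mul_left C)
      have := hC (t / 2) h0 k
      simpa only [hhalf] using this
    · have := H.herm (t / 2) h0
      simpa only [hhalf] using this
    · have := H.zero (t / 2) h0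
      simpa only [hhalf] using this
  have hbi : ∀ t, 0 < t → ∀ i, Summable fun k => b t k i := fun t ht i =>
    Summable.of_norm (Summable.of_nonneg_of_le (fun _ => norm_nonneg _)
      (fun k => norm_le_pi_norm (b t k) i) (hbt t ht).1)
  refine ⟨fun t x => m + fld b t (x - t • m), p, hp, ?_, ?_, ?_⟩
  · -- attainment of the datum
    intro q hq i
    set Cc : ℝ := ∑' k, ‖c k‖ with hCc
    set κ : ℝ := 2 * Real.pi * (3 * ‖m‖) with hκ
    have hκ0 : 0 ≤ κ := by positivity
    have hbound : ∀ t, 0 < t → bes q (fun x => (m + fld b t (x - t • m)) i - u₀ x i)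
        ≤ 2 ^ (q - 1) * (besC q (fun k => ‖b t k - c k‖)
          + ENNReal.ofReal (1 * (κ * t * Cc) ^ q)) := by
      intro t ht
      obtain ⟨hs, hh, hz⟩ := hbt t ht
      set e : K3 → ℂ := fun k => ee k (-(t • m)) with he
      set d : K3 → ℂ := fun k => (if k = 0 then ((m i : ℝ) : ℂ) else 0) + e k * b t k i with hd
      have hds : Summable fun k => e k * b t k i := by
        refine Summable.of_norm ?_
        refine (hbi t ht i).norm.congr fun k => ?_
        rw [norm_mul, he, norm_ee, one_mul]
      have hm1 : Summable fun k : K3 => (if k = 0 then ((m i : ℝ) : ℂ) else 0) :=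
        summable_of_hasFiniteSupport ((Set.finite_singleton (0 : K3)).subset fun k hk => by
          by_contra h
          exact hk (if_neg h))
      have hdS : Summable d := hm1.add hds
      have hS0 : ∀ x, S (fun k : K3 => if k = 0 then ((m i : ℝ) : ℂ) else 0) x = m i := by
        intro x
        unfold S
        rw [tsum_eq_single 0 (fun k hk => by dsimp only; rw [if_neg hk, zero_mul])]
        dsimp only
        rw [if_pos rfl, ee_zero, mul_one]
      have hdx : ∀ x, (m + fld b t (x - t • m)) i = (S d x).re := by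
        intro x
        have e1 : S d x = S (fun k : K3 => if k = 0 then ((m i : ℝ) : ℂ) else 0) x
            + S (fun k => e k * b t k i) x := by
          unfold S
          rw [← (summable_term hm1 x).tsum_add (summable_term hds x)]
          exact tsum_congr fun k => by simp only [hd]; ring
        rw [e1, hS0, Complex.add_re, Complex.ofReal_re, Pi.add_apply]
        congr 1
        show (S (fun k => b t k i) (x - t • m)).re = _
        rw [sub_eq_add_neg, S_shift]
      have hdh : ∀ k, d (-k) = (starRingEnd ℂ) (d k) := by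
        intro k
        simp only [hd, he]
        rw [map_add, map_mul, ee_neg, hh k i]
        congr 1
        by_cases hk : k = 0
        · rw [if_pos hk, if_pos (neg_eq_zero.2 hk), Complex.conj_ofReal]
        · rw [if_neg hk, if_neg (fun h => hk (neg_eq_zero.1 h)), map_zero]
      have hfun : (fun x => (m + fld b t (x - t • m)) i) = fun x => (S d x).re := funext hdx
      have hcont : Continuous fun x => (S d x).re :=
        Complex.continuous_re.comp (S_continuous hdS)
      have hfr : ∀ k, ‖fr (fun x => (m + fld b t (x - t • m)) i - u₀ x i) k‖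
          ≤ ‖b t k - c k‖ + κ * t * (len k * ‖c k‖) := by
        intro k
        have e2 : (fun x => (m + fld b t (x - t • m)) i - u₀ x i)
            = fun x => (S d x).re - u₀ x i := by
          funext x
          rw [hdx]
        rw [e2, h32.GD.fr_sub hcont (hsp i).smooth.continuous, h32.GD.fr_S hdS hdh]
        by_cases hk : k = 0
        · subst hk
          simp only [hd, if_true, hz, Pi.zero_apply, mul_zero, add_zero, hm0, sub_self, norm_zero,
            hc0]
          positivity
        · have e3 : d k - fr (fun x => u₀ x i) k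
              = e k * (b t k i - c k i) + (e k - 1) * c k i := by
            simp only [hd, hc, if_neg hk]
            show _ - fr (fun x => u₀ x i) k = _ * (_ - fr (fun x => u₀ x i) k)
              + _ * fr (fun x => u₀ x i) k
            ring
          rw [e3]
          refine (norm_add_le _ _).trans (add_le_add ?_ ?_)
          · rw [norm_mul, he, norm_ee, one_mul]
            exact norm_le_pi_norm (b t k - c k) i
          · rw [norm_mul]
            have h5 : ‖e k - 1‖ ≤ κ * t * len k := by
              refine (norm_ee_sub_one k _).trans ?_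
              have h6 : ph k (-(t • m)) = -(t * ph k m) := by
                rw [← neg_smul, ph_smul]
                ring
              rw [h6, abs_neg, abs_mul, abs_of_pos ht]
              have h7 := abs_ph_le k m
              calc 2 * Real.pi * (t * |ph k m|) ≤ 2 * Real.pi * (t * (3 * len k * ‖m‖)) := by
                    gcongr
                _ = κ * t * len k := by rw [hκ]; ring
            calc ‖e k - 1‖ * ‖c k i‖ ≤ κ * t * len k * ‖c k‖ :=
                  mul_le_mul h5 (norm_le_pi_norm (c k) i) (norm_nonneg _)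
                    (mul_nonneg (mul_nonneg hκ0 ht.le) (h782.GD.len_nonneg k))
              _ = _ := by ring
      have hs1 : Summable fun k => ‖b t k - c k‖ :=
        Summable.of_nonneg_of_le (fun _ => norm_nonneg _) (fun k => norm_sub_le _ _) (hs.add hcS)
      have hs2 : Summable fun k => κ * t * (len k * ‖c k‖) := hcL.mul_left _
      have hn2 : ∀ k, 0 ≤ κ * t * (len k * ‖c k‖) := fun k =>
        mul_nonneg (mul_nonneg hκ0 ht.le) (mul_nonneg (h782.GD.len_nonneg k) (norm_nonneg _))
      refine (bes_le_besC (by linarith) (hs1.add hs2) hfr).trans ?_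
      refine (besC_add_le (by linarith) (fun k => norm_nonneg _) hn2).trans ?_
      refine mul_le_mul' le_rfl (add_le_add le_rfl ?_)
      refine (bes_one q hq _ hn2 (by rw [hc0, norm_zero]; ring) hs2).trans (le_of_eq ?_)
      congr 3
      rw [hCc, ← tsum_mul_left]
      refine tsum_congr fun k => ?_
      by_cases hk : k = 0
      · subst hk
        simp [hc0]
      · have := (h782.GD.len_pos hk).ne'
        field_simp
    have hlim2 : Tendsto (fun t : ℝ => ENNReal.ofReal (1 * (κ * t * Cc) ^ q)) (𝓝[>] 0) (𝓝 0) := by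
      have h1 : Tendsto (fun t : ℝ => 1 * (κ * t * Cc) ^ q) (𝓝 0) (𝓝 (1 * (κ * 0 * Cc) ^ q)) := by
        refine Tendsto.const_mul _ ?_
        refine Tendsto.rpow_const ?_ (Or.inr (by linarith))
        exact ((tendsto_id.const_mul κ).mul_const Cc)
      have h2 : 1 * (κ * 0 * Cc) ^ q = 0 := by
        rw [mul_zero, zero_mul, Real.zero_rpow (by linarith), mul_zero]
      rw [h2] at h1
      have h3 := ENNReal.tendsto_ofReal (h1.mono_left (nhdsWithin_le_nhds (s := Ioi (0 : ℝ))))
      rwa [ENNReal.ofReal_zero] at h3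
    have hlim : Tendsto (fun t : ℝ => (2 : ℝ≥0∞) ^ (q - 1) * (besC q (fun k => ‖b t k - c k‖)
        + ENNReal.ofReal (1 * (κ * t * Cc) ^ q))) (𝓝[>] 0) (𝓝 0) := by
      have h1 := (hbes q hq).add hlim2
      rw [add_zero] at h1
      have h2 := ENNReal.Tendsto.const_mul (a := (2 : ℝ≥0∞) ^ (q - 1)) h1
        (Or.inr (ENNReal.rpow_ne_top_of_nonneg (by linarith) (by norm_num)))
      rwa [mul_zero] at h2
    refine tendsto_of_tendsto_of_tendsto_of_le_of_le' tendsto_const_nhds hlim
      (Eventually.of_forall fun _ => zero_le) ?_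
    filter_upwards [self_mem_nhdsWithin] with t ht
    exact hbound t ht
  · -- integrability in time
    refine ⟨fun t => ‖m‖ + ∑' k, ‖b t k‖, fun t ht x i => ?_, fun r hr hr2 => ?_⟩
    · obtain ⟨hs, _, _⟩ := hbt t ht
      show |m i + fld b t (x - t • m) i| ≤ _
      refine (abs_add_le _ _).trans (add_le_add ?_ ?_)
      · rw [← Real.norm_eq_abs]
        exact norm_le_pi_norm m i
      · refine (Complex.abs_re_le_norm _).trans ((norm_S_le (hbi t ht i) _).trans ?_)
        exact Summable.tsum_le_tsum (fun k => norm_le_pi_norm _ i) (hbi t ht i).norm hs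
    · have hN := hLr r hr hr2
      set Nb : ℝ → ℝ := fun t => ∑' k, ‖b t k‖ with hNb
      have hNb0 : ∀ t, 0 ≤ Nb t := fun t => tsum_nonneg fun _ => norm_nonneg _
      have hmeas : AEStronglyMeasurable (fun t => (‖m‖ + Nb t) ^ r)
          (volume.restrict (Ioc 0 1)) := by
        have h1 : AEStronglyMeasurable (fun t => (‖m‖ + (Nb t ^ r) ^ (1 / r)) ^ r)
            (volume.restrict (Ioc 0 1)) := by
          have hc1 : Continuous fun y : ℝ => (‖m‖ + y ^ (1 / r)) ^ r := by
            refine Continuous.rpow_const (continuous_const.add ?_) fun _ => Or.inr hr.le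
            exact continuous_id.rpow_const fun _ => Or.inr (by positivity)
          exact hc1.comp_aestronglyMeasurable hN.aestronglyMeasurable
        refine h1.congr (Eventually.of_forall fun t => ?_)
        show (‖m‖ + (Nb t ^ r) ^ (1 / r)) ^ r = (‖m‖ + Nb t) ^ r
        rw [← Real.rpow_mul (hNb0 t), mul_one_div, div_self hr.ne', Real.rpow_one]
      have hdom : IntegrableOn (fun t => 2 ^ r * ‖m‖ ^ r + 2 ^ r * Nb t ^ r) (Ioc 0 1) := by
        refine Integrable.add ?_ (hN.const_mul _)
        exact integrableOn_const (by simp)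
      refine Integrable.mono' hdom hmeas (Eventually.of_forall fun t => ?_)
      have h0 : 0 ≤ ‖m‖ + Nb t := add_nonneg (norm_nonneg _) (hNb0 t)
      rw [Real.norm_of_nonneg (Real.rpow_nonneg h0 _)]
      rcases le_total ‖m‖ (Nb t) with h | h
      · calc (‖m‖ + Nb t) ^ r ≤ (2 * Nb t) ^ r :=
              Real.rpow_le_rpow h0 (by linarith) hr.le
          _ = 2 ^ r * Nb t ^ r := Real.mul_rpow (by norm_num) (hNb0 t)
          _ ≤ _ := le_add_of_nonneg_left (by positivity)
      · calc (‖m‖ + Nb t) ^ r ≤ (2 * ‖m‖) ^ r :=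
              Real.rpow_le_rpow h0 (by linarith) hr.le
          _ = 2 ^ r * ‖m‖ ^ r := Real.mul_rpow (by norm_num) (norm_nonneg _)
          _ ≤ _ := le_add_of_nonneg_right
              (mul_nonneg (by positivity) (Real.rpow_nonneg (hNb0 t) _))
  · -- closeness to the target
    intro t ht x i
    have ht0 : 0 < t := hδ.trans_le ht
    obtain ⟨hs, _, _⟩ := hbt t ht0
    set y : V := x - t • m with hy
    have hspU : SP (fun z => U' t z i) :=
      (hUs (t + 1)).sp (t := t) ⟨ht0.le, by linarith⟩ i
    have hUy : U t x i = m i + U' t y i := by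
      simp only [hU', Pi.add_apply, Pi.neg_apply, hy]
      have : x - t • m - t • (-m) = x := by
        rw [smul_neg]
        abel
      rw [this]
      ring
    have hfrU : Summable (fr (fun z => U' t z i)) := (rap_fr hspU).summable
    have hUre : U' t y i = (S (fr (fun z => U' t z i)) y).re := by
      rw [S_fr hspU, Complex.ofReal_re]
    show |(m + fld b t y) i - U t x i| ≤ δ
    have e1 : (m + fld b t y) i - U t x i
        = (S (fun k => b t k i - fr (fun z => U' t z i) k) y).re := by
      rw [hUy, Pi.add_apply, hUre]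
      have e2 : S (fun k => b t k i - fr (fun z => U' t z i) k) y
          = S (fun k => b t k i) y - S (fr (fun z => U' t z i)) y := by
        unfold S
        rw [← (summable_term (hbi t ht0 i) y).tsum_sub (summable_term hfrU y)]
        exact tsum_congr fun k => by ring
      rw [e2, Complex.sub_re]
      show m i + (S (fun k => b t k i) y).re - _ = _
      ring
    rw [e1]
    have hsd : Summable fun k => b t k i - fr (fun z => U' t z i) k := (hbi t ht0 i).sub hfrU
    refine (Complex.abs_re_le_norm _).trans ((norm_S_le hsd _).trans ?_)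
    refine Real.tsum_le_of_sum_le (fun _ => norm_nonneg _) fun A => ?_
    refine (Finset.sum_le_sum fun k _ => ?_).trans (hclose t ht A)
    exact norm_le_pi_norm (b t k - vf (U' t) k) i

end Pool.Agent.Run7.h744.GS
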