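import Pool.Agent.Run7.h782.GS.Defs
import Pool.Agent.Run7.h782.GD.Dec

/-!
Uniform smoothing of the solutions of the equation for the coefficients: a bound of the sum norm
gives uniform exponential decay a little later.
-/

set_option autoImplicit false

open MeasureTheory Set Filter Topology

namespace Pool.Agent.Run7.h744.GS

open H459R3.NS Pool.Agent.Run7.h782.GD Pool.Agent.Run7.h782.GS

/-! ### The truncated exponential -/

/-- The truncated exponential. -/
noncomputable def E (ε x : ℝ) : ℝ := (Real.exp (-x) + ε)⁻¹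

theorem E_den_pos {ε : ℝ} (hε : 0 < ε) (x : ℝ) : 0 < Real.exp (-x) + ε := by positivity

theorem E_pos {ε : ℝ} (hε : 0 < ε) (x : ℝ) : 0 < E ε x := inv_pos.mpr (E_den_pos hε x)

theorem E_le {ε : ℝ} (hε : 0 < ε) (x : ℝ) : E ε x ≤ ε⁻¹ :=
  inv_anti₀ hε (by linarith [Real.exp_pos (-x)])

theorem E_zero_le {ε : ℝ} (hε : 0 < ε) : E ε 0 ≤ 1 := by
  rw [E, neg_zero, Real.exp_zero]
  exact inv_le_one_of_one_le₀ (by linarith)

theorem E_mono {ε : ℝ} (hε : 0 < ε) {x y : ℝ} (h : x ≤ y) : E ε x ≤ E ε y := by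
  refine inv_anti₀ (E_den_pos hε y) ?_
  have := Real.exp_le_exp.mpr (neg_le_neg h)
  linarith

theorem E_add_le {ε : ℝ} (hε : 0 < ε) (hε1 : ε ≤ 1) {x y : ℝ} (hx : 0 ≤ x) (hy : 0 ≤ y) :
    E ε (x + y) ≤ 3 * (E ε x * E ε y) := by
  have h1 : Real.exp (-x) ≤ 1 := Real.exp_le_one_iff.mpr (by linarith)
  have h2 : Real.exp (-y) ≤ 1 := Real.exp_le_one_iff.mpr (by linarith)
  have h3 : Real.exp (-(x + y)) = Real.exp (-x) * Real.exp (-y) := by
    rw [← Real.exp_add]
    congr 1
    ring
  have hx' := E_den_pos hε x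
  have hy' := E_den_pos hε y
  rw [E, E, E, ← mul_inv, ← div_eq_mul_inv, inv_eq_one_div,
    div_le_div_iff₀ (E_den_pos hε _) (mul_pos hx' hy'), h3]
  have p1 := Real.exp_pos (-x)
  have p2 := Real.exp_pos (-y)
  nlinarith [mul_pos p1 p2, mul_le_mul_of_nonneg_left h1 hε.le, mul_le_mul_of_nonneg_left h2 hε.le,
    mul_le_mul_of_nonneg_left hε1 hε.le]

/-- The logarithmic derivative of `E`. -/
noncomputable def ld (ε x : ℝ) : ℝ := Real.exp (-x) * E ε x

theorem ld_nonneg {ε : ℝ} (hε : 0 < ε) (x : ℝ) : 0 ≤ ld ε x :=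
  mul_nonneg (Real.exp_pos _).le (E_pos hε x).le

theorem ld_le_one {ε : ℝ} (hε : 0 < ε) (x : ℝ) : ld ε x ≤ 1 := by
  rw [ld, E, ← div_eq_mul_inv, div_le_one (E_den_pos hε x)]
  linarith

theorem E_hasDerivAt {ε : ℝ} (hε : 0 < ε) (x : ℝ) : HasDerivAt (E ε) (ld ε x * E ε x) x := by
  have h1 : HasDerivAt (fun x : ℝ => Real.exp (-x) + ε) (Real.exp (-x) * (-1)) x := by
    have := ((hasDerivAt_id x).neg).exp
    simpa using this.add_const ε
  have h2 := h1.inv (E_den_pos hε x).ne'
  refine h2.congr_deriv ?_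
  rw [ld, E]
  have := (E_den_pos hε x).ne'
  field_simp
  try ring

theorem E_cont {ε : ℝ} (hε : 0 < ε) : Continuous (E ε) :=
  continuous_iff_continuousAt.mpr fun x => (E_hasDerivAt hε x).continuousAt

theorem ld_cont {ε : ℝ} (hε : 0 < ε) : Continuous (ld ε) :=
  (Real.continuous_exp.comp continuous_neg).mul (E_cont hε)

/-! ### The weighted estimate of the nonlinear term -/

theorem sum_wnl_le {a : Cf} {w : K3 → ℝ} (hw0 : ∀ k, 0 ≤ w k)
    (hw : ∀ k p, w k ≤ 3 * (w p * w (k - p)))
    (ha : Summable fun k => ‖a k‖) (hs0 : Summable fun k => w k * ‖a k‖)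
    (hs1 : Summable fun k => len k * (w k * ‖a k‖)) (A : Finset K3) :
    ∑ k ∈ A, w k * ‖nl a a k‖
      ≤ 144 * Real.pi * ((∑' k, len k * (w k * ‖a k‖)) * ∑' k, w k * ‖a k‖) := by
  set f : K3 → ℝ := fun k => w k * ‖a k‖ with hf
  set g : K3 → ℝ := fun k => len k * (w k * ‖a k‖) with hg
  have hf0 : ∀ k, 0 ≤ f k := fun k => mul_nonneg (hw0 k) (norm_nonneg _)
  have hg0 : ∀ k, 0 ≤ g k := fun k => mul_nonneg (len_nonneg k) (hf0 k)
  have hpi := Real.pi_pos
  have key : ∀ k, w k * ‖nl a a k‖ ≤ 72 * Real.pi *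
      ((∑' p, g p * f (k - p)) + ∑' p, f p * g (k - p)) := by
    intro k
    have c1 := summable_conv hg0 hf0 hs1 hs0 k
    have c2 := summable_conv hf0 hg0 hs0 hs1 k
    have c0 := summable_conv (fun k => norm_nonneg (a k)) (fun k => norm_nonneg (a k)) ha ha k
    have h1 := mul_le_mul_of_nonneg_left (norm_nl_le ha ha k) (hw0 k)
    refine h1.trans ?_
    have e : w k * (24 * Real.pi * len k * ∑' p, ‖a p‖ * ‖a (k - p)‖)
        = 24 * Real.pi * ∑' p, w k * len k * (‖a p‖ * ‖a (k - p)‖) := by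
      rw [tsum_mul_left]
      ring
    rw [e]
    have e2 : 72 * Real.pi * ((∑' p, g p * f (k - p)) + ∑' p, f p * g (k - p))
        = 24 * Real.pi * (3 * ((∑' p, g p * f (k - p)) + ∑' p, f p * g (k - p))) := by ring
    rw [e2]
    refine mul_le_mul_of_nonneg_left ?_ (by positivity)
    rw [← c1.tsum_add c2, ← tsum_mul_left]
    refine Summable.tsum_le_tsum (fun p => ?_) (c0.mul_left _) ((c1.add c2).mul_left _)
    have hn := mul_nonneg (norm_nonneg (a p)) (norm_nonneg (a (k - p)))
    calc w k * len k * (‖a p‖ * ‖a (k - p)‖)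
        ≤ (3 * (w p * w (k - p))) * (len p + len (k - p)) * (‖a p‖ * ‖a (k - p)‖) := by
          refine mul_le_mul_of_nonneg_right ?_ hn
          refine mul_le_mul (hw k p) (len_le_add k p) (len_nonneg k) ?_
          have := mul_nonneg (hw0 p) (hw0 (k - p))
          positivity
      _ = 3 * (g p * f (k - p) + f p * g (k - p)) := by
          simp only [hf, hg]
          ring
  have hin : ∀ (f : K3 → ℝ), (∀ k, 0 ≤ f k) → Summable f → ∀ p : K3,
      ∑ k ∈ A, f (k - p) ≤ ∑' q, f q := by
    intro f hf hfs p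
    have e := Finset.sum_map A (Equiv.subRight p).toEmbedding f
    simp only [Equiv.coe_toEmbedding, Equiv.subRight_apply] at e
    rw [← e]
    exact hfs.sum_le_tsum _ fun q _ => hf q
  have conv : ∀ (f g : K3 → ℝ), (∀ k, 0 ≤ f k) → (∀ k, 0 ≤ g k) → Summable f → Summable g →
      ∑ k ∈ A, ∑' p, f p * g (k - p) ≤ (∑' p, f p) * ∑' q, g q := by
    intro f g hf hg hfs hgs
    rw [← Summable.tsum_finsetSum fun k _ => summable_conv hf hg hfs hgs k, ← tsum_mul_right]
    have hle : ∀ p, ∑ k ∈ A, f p * g (k - p) ≤ f p * ∑' q, g q := fun p => by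
      rw [← Finset.mul_sum]
      exact mul_le_mul_of_nonneg_left (hin g hg hgs p) (hf p)
    refine Summable.tsum_le_tsum hle ?_ (hfs.mul_right _)
    exact Summable.of_nonneg_of_le
      (fun p => Finset.sum_nonneg fun k _ => mul_nonneg (hf p) (hg _)) hle (hfs.mul_right _)
  calc ∑ k ∈ A, w k * ‖nl a a k‖ ≤ ∑ k ∈ A, 72 * Real.pi *
        ((∑' p, g p * f (k - p)) + ∑' p, f p * g (k - p)) := Finset.sum_le_sum fun k _ => key k
    _ = 72 * Real.pi * ((∑ k ∈ A, ∑' p, g p * f (k - p))
        + ∑ k ∈ A, ∑' p, f p * g (k - p)) := by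
        rw [← Finset.mul_sum, Finset.sum_add_distrib]
    _ ≤ 72 * Real.pi * ((∑' p, g p) * (∑' q, f q) + (∑' p, f p) * ∑' q, g q) := by
        refine mul_le_mul_of_nonneg_left (add_le_add ?_ ?_) (by positivity)
        · exact conv _ _ hg0 hf0 hs1 hs0
        · exact conv _ _ hf0 hg0 hs0 hs1
    _ = _ := by ring

/-! ### The main estimate -/

/-- The smoothing estimate on a short interval. -/
theorem smooth_aux {ν : ℝ} (hν : 0 < ν) {a : ℝ → Cf} (H : CSol ν a) {M t₀ : ℝ} (hM : 0 ≤ M)
    (ht₀ : 0 ≤ t₀) (hb : ∀ A : Finset K3, ∑ k ∈ A, ‖a t₀ k‖ ≤ M) {Λ c T : ℝ}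
    (hΛ : Λ = 1 + 144 * Real.pi * (2 * M + 1)) (hc : c = Λ ^ 2 / (16 * Real.pi ^ 2 * ν))
    (hT0 : 0 ≤ T) (hT : T * (c * (2 * M + 1)) ≤ 1 / 2) {ε : ℝ} (hε : 0 < ε) (hε1 : ε ≤ 1) :
    ∀ t ∈ Icc t₀ (t₀ + T), ∑' k, E ε ((t - t₀) * len k) * ‖a t k‖ ≤ 2 * M + 1 := by
  have hpi := Real.pi_pos
  obtain ⟨μ, hμ, C, hC⟩ := H.dec
  have hC0 : 0 ≤ C := by
    have h5 := (norm_nonneg _).trans (hC 0 le_rfl 0)
    exact nonneg_of_mul_nonneg_left h5 (Real.exp_pos _)
  have hac : ∀ k, ContinuousOn (fun t => a t k) (Ici 0) := fun k t ht =>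
    (H.der t ht k).continuousWithinAt
  set M' : ℝ := 2 * M + 1 with hM'
  have hM'0 : 0 < M' := by linarith
  have hΛ0 : 0 < Λ := by rw [hΛ]; positivity
  have hc0 : 0 < c := by rw [hc]; positivity
  set w : ℝ → K3 → ℝ := fun t k => E ε ((t - t₀) * len k) with hw
  have hw0 : ∀ t k, 0 ≤ w t k := fun t k => (E_pos hε _).le
  have hwle : ∀ t k, w t k ≤ ε⁻¹ := fun t k => E_le hε _
  have hwm : ∀ t, t₀ ≤ t → ∀ k p, w t k ≤ 3 * (w t p * w t (k - p)) := by
    intro t ht k p
    have h1 : 0 ≤ t - t₀ := by linarith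
    refine le_trans (E_mono hε (mul_le_mul_of_nonneg_left (len_le_add k p) h1)) ?_
    rw [mul_add]
    exact E_add_le hε hε1 (mul_nonneg h1 (len_nonneg _)) (mul_nonneg h1 (len_nonneg _))
  set N : ℝ → K3 → ℝ := fun t k => w t k * ‖a t k‖ with hN
  have hN0 : ∀ t k, 0 ≤ N t k := fun t k => mul_nonneg (hw0 t k) (norm_nonneg _)
  have hNle : ∀ t, 0 ≤ t → ∀ k, N t k ≤ ε⁻¹ * C * Real.exp (-(μ * len k)) := by
    intro t ht k
    calc N t k ≤ ε⁻¹ * (C * Real.exp (-(μ * len k))) :=
          mul_le_mul (hwle t k) (hC t ht k) (norm_nonneg _) (by positivity)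
      _ = _ := by ring
  set b0 : K3 → ℝ := fun k => ε⁻¹ * C * Real.exp (-(μ * len k)) with hb0
  set b2 : K3 → ℝ := fun k => ε⁻¹ * C * (len k ^ 2 * Real.exp (-(μ * len k))) with hb2
  have hb0s : Summable b0 := (summable_exp_len hμ).mul_left _
  have hb2s : Summable b2 := (summable_len2_exp hμ).mul_left _
  have hb20 : ∀ k, 0 ≤ b2 k := fun k => by positivity
  have hN2 : ∀ t, 0 ≤ t → ∀ k, len k ^ 2 * N t k ≤ b2 k := by
    intro t ht k
    calc len k ^ 2 * N t k ≤ len k ^ 2 * (ε⁻¹ * C * Real.exp (-(μ * len k))) :=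
          mul_le_mul_of_nonneg_left (hNle t ht k) (by positivity)
      _ = b2 k := by simp only [hb2]; ring
  have hsa : ∀ t, 0 ≤ t → Summable fun k => ‖a t k‖ := fun t ht =>
    Summable.of_nonneg_of_le (fun _ => norm_nonneg _) (hC t ht) ((summable_exp_len hμ).mul_left C)
  have hs0 : ∀ t, 0 ≤ t → Summable fun k => N t k := fun t ht =>
    Summable.of_nonneg_of_le (hN0 t) (hNle t ht) hb0s
  have hs2 : ∀ t, 0 ≤ t → Summable fun k => len k ^ 2 * N t k := fun t ht =>
    Summable.of_nonneg_of_le (fun k => mul_nonneg (by positivity) (hN0 t k)) (hN2 t ht) hb2s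
  have hs1 : ∀ t, 0 ≤ t → Summable fun k => len k * N t k := by
    intro t ht
    refine Summable.of_nonneg_of_le (fun k => mul_nonneg (len_nonneg k) (hN0 t k))
      (fun k => ?_) ((hs0 t ht).add (hs2 t ht))
    have h1 : len k ≤ 1 + len k ^ 2 := by nlinarith [len_nonneg k]
    have := mul_le_mul_of_nonneg_right h1 (hN0 t k)
    linarith
  -- continuity
  have hwc : ∀ k, Continuous fun t => w t k := fun k =>
    (E_cont hε).comp ((continuous_id.sub continuous_const).mul continuous_const)
  have hNc : ∀ k, ContinuousOn (fun t => N t k) (Ici 0) := fun k =>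
    (hwc k).continuousOn.mul (hac k).norm
  have hYc : ContinuousOn (fun t => ∑' k, N t k) (Ici 0) := by
    refine continuousOn_tsum hNc hb0s fun k t ht => ?_
    rw [Real.norm_eq_abs, abs_of_nonneg (hN0 t k)]
    exact hNle t ht k
  -- the key estimate
  have key : ∀ t, t₀ ≤ t → (∀ r ∈ Icc t₀ t, ∑' k, N r k ≤ M') →
      ∑' k, N t k ≤ M + (t - t₀) * (c * M') := by
    intro t htt hbd
    have main : ∀ A : Finset K3, ∑ k ∈ A, N t k ≤ M + (t - t₀) * (c * M')
        + (t - t₀) * (4 * Real.pi ^ 2 * ν) * ∑' k : {k // k ∉ A}, b2 k := by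
      intro A
      set τ : ℝ := ∑' k : {k // k ∉ A}, b2 k with hτ
      have hsub : ∀ r ∈ Icc t₀ t, (0 : ℝ) ≤ r := fun r hr => ht₀.trans hr.1
      have h1 : ∀ k ∈ A, N t k + lam ν k * ∫ r in t₀..t, N r k
          ≤ N t₀ k + ∫ r in t₀..t, (len k * N r k + w r k * ‖nl (a r) (a r) k‖) := by
        intro k _
        set y : ℝ → C3 := fun r => w r k • a r k with hy
        set G : ℝ → C3 := fun r => (len k * ld ε ((r - t₀) * len k)) • y r
          - w r k • nl (a r) (a r) k with hG
        have hyc : ContinuousOn y (Icc t₀ t) :=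
          (hwc k).continuousOn.smul ((hac k).mono hsub)
        have hldc : Continuous fun r : ℝ => len k * ld ε ((r - t₀) * len k) :=
          continuous_const.mul ((ld_cont hε).comp
            ((continuous_id.sub continuous_const).mul continuous_const))
        have hGc : ContinuousOn G (Icc t₀ t) :=
          (hldc.continuousOn.smul hyc).sub
            ((hwc k).continuousOn.smul ((H.nl_cont k).mono hsub))
        have h2 := damped (y := y) (G := G) (l := lam ν k) (s := t₀) (t := t) (by
          rw [lam]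
          have := sq_nonneg' k
          positivity) htt hyc hGc (fun r hr => by
            have h3 := (H.der r (ht₀.trans hr.1.le) k).hasDerivAt
              (Ici_mem_nhds (ht₀.trans_lt hr.1))
            have h4 : HasDerivAt (fun r => w r k)
                (ld ε ((r - t₀) * len k) * E ε ((r - t₀) * len k) * len k) r := by
              have h5 : HasDerivAt (fun r : ℝ => (r - t₀) * len k) (len k) r := by
                simpa using ((hasDerivAt_id r).sub_const t₀).mul_const (len k)
              exact (E_hasDerivAt hε _).comp r h5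
            have h6 := h4.fun_smul h3
            refine h6.congr_deriv ?_
            have e1 : (lam ν k : ℂ) • a r k = lam ν k • a r k := by
              funext i
              simp
            rw [neg_smul, e1]
            simp only [hG, hy, hw]
            module)
        have n1 : ∀ r, ‖y r‖ = N r k := fun r => by
          simp only [hy, hN]
          rw [norm_smul, Real.norm_eq_abs, abs_of_nonneg (hw0 r k)]
        simp only [n1] at h2
        refine h2.trans (add_le_add le_rfl ?_)
        refine intervalIntegral.integral_mono_on htt ?_ ?_ fun r hr => ?_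
        · rw [← uIcc_of_le htt] at hGc
          exact hGc.norm.intervalIntegrable
        · refine ContinuousOn.intervalIntegrable ?_
          rw [uIcc_of_le htt]
          exact (continuousOn_const.mul ((hNc k).mono hsub)).add
            ((hwc k).continuousOn.mul ((H.nl_cont k).mono hsub).norm)
        · refine (norm_sub_le _ _).trans (add_le_add ?_ ?_)
          · rw [norm_smul, Real.norm_eq_abs, abs_of_nonneg
              (mul_nonneg (len_nonneg k) (ld_nonneg hε _)), n1]
            refine mul_le_mul_of_nonneg_right ?_ (hN0 r k)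
            exact mul_le_of_le_one_right (len_nonneg k) (ld_le_one hε _)
          · rw [norm_smul, Real.norm_eq_abs, abs_of_nonneg (hw0 r k)]
      have hic : ∀ k, IntervalIntegrable (fun r => N r k) volume t₀ t := fun k => by
        refine ContinuousOn.intervalIntegrable ?_
        rw [uIcc_of_le htt]
        exact (hNc k).mono hsub
      have hin : ∀ k, IntervalIntegrable
          (fun r => len k * N r k + w r k * ‖nl (a r) (a r) k‖) volume t₀ t := fun k => by
        refine ContinuousOn.intervalIntegrable ?_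
        rw [uIcc_of_le htt]
        exact (continuousOn_const.mul ((hNc k).mono hsub)).add
            ((hwc k).continuousOn.mul ((H.nl_cont k).mono hsub).norm)
      have h2 : ∑ k ∈ A, N t k + 4 * Real.pi ^ 2 * ν * ∫ r in t₀..t, ∑ k ∈ A, len k ^ 2 * N r k
          ≤ ∑ k ∈ A, N t₀ k
            + ∫ r in t₀..t, ∑ k ∈ A, (len k * N r k + w r k * ‖nl (a r) (a r) k‖) := by
        rw [intervalIntegral.integral_finsetSum fun k _ => (hic k).const_mul _,
          intervalIntegral.integral_finsetSum fun k _ => hin k, Finset.mul_sum,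
          ← Finset.sum_add_distrib, ← Finset.sum_add_distrib]
        refine Finset.sum_le_sum fun k hk => ?_
        refine le_trans (le_of_eq ?_) (h1 k hk)
        rw [intervalIntegral.integral_const_mul, lam, len_sq]
        ring
      have h3 : ∫ r in t₀..t, ∑ k ∈ A, (len k * N r k + w r k * ‖nl (a r) (a r) k‖)
          ≤ ∫ r in t₀..t, (4 * Real.pi ^ 2 * ν * (∑ k ∈ A, len k ^ 2 * N r k)
            + (4 * Real.pi ^ 2 * ν * τ + c * M')) := by
        refine intervalIntegral.integral_mono_on htt ?_ ?_ fun r hr => ?_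
        · exact ii_sum fun k _ => hin k
        · refine IntervalIntegrable.add (IntervalIntegrable.const_mul ?_ _)
            intervalIntegrable_const
          exact ii_sum fun k _ => (hic k).const_mul _
        · have hr0 : 0 ≤ r := hsub r hr
          have h4 := sum_wnl_le (a := a r) (w := w r) (hw0 r) (hwm r hr.1) (hsa r hr0)
            (hs0 r hr0) (hs1 r hr0) A
          have h5 : ∑' k, len k ^ 2 * N r k ≤ ∑ k ∈ A, len k ^ 2 * N r k + τ := by
            rw [← (hs2 r hr0).sum_add_tsum_compl (s := A)]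
            refine add_le_add le_rfl ?_
            exact ((hs2 r hr0).subtype _).tsum_le_tsum (fun k => hN2 r hr0 k) (hb2s.subtype _)
          have h6 : ∑ k ∈ A, len k * N r k ≤ ∑' k, len k * N r k :=
            (hs1 r hr0).sum_le_tsum _ fun k _ => mul_nonneg (len_nonneg k) (hN0 r k)
          have hY1 : 0 ≤ ∑' k, len k * N r k :=
            tsum_nonneg fun k => mul_nonneg (len_nonneg k) (hN0 r k)
          have hY0 : ∑' k, N r k ≤ M' := hbd r hr
          have h7 : Λ * ∑' k, len k * N r k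
              ≤ 4 * Real.pi ^ 2 * ν * (∑' k, len k ^ 2 * N r k) + c * ∑' k, N r k := by
            rw [← tsum_mul_left, ← tsum_mul_left, ← tsum_mul_left,
              ← ((hs2 r hr0).mul_left _).tsum_add ((hs0 r hr0).mul_left _)]
            refine Summable.tsum_le_tsum (fun k => ?_) ((hs1 r hr0).mul_left _)
              (((hs2 r hr0).mul_left _).add ((hs0 r hr0).mul_left _))
            have h8 : Λ * len k ≤ 4 * Real.pi ^ 2 * ν * len k ^ 2 + c := by
              have h9 : 4 * Real.pi ^ 2 * ν * len k ^ 2 + c - Λ * len k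
                  = (8 * Real.pi ^ 2 * ν * len k - Λ) ^ 2 / (16 * Real.pi ^ 2 * ν) := by
                rw [hc]
                field_simp
                ring
              have h10 : 0 ≤ (8 * Real.pi ^ 2 * ν * len k - Λ) ^ 2 / (16 * Real.pi ^ 2 * ν) := by
                positivity
              linarith
            have := mul_le_mul_of_nonneg_right h8 (hN0 r k)
            linarith
          rw [Finset.sum_add_distrib]
          calc ∑ k ∈ A, len k * N r k + ∑ k ∈ A, w r k * ‖nl (a r) (a r) k‖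
              ≤ (∑' k, len k * N r k) + 144 * Real.pi *
                ((∑' k, len k * N r k) * ∑' k, N r k) := add_le_add h6 h4
            _ ≤ (∑' k, len k * N r k) + 144 * Real.pi * ((∑' k, len k * N r k) * M') := by
                refine add_le_add le_rfl (mul_le_mul_of_nonneg_left ?_ (by positivity))
                exact mul_le_mul_of_nonneg_left hY0 hY1
            _ = Λ * ∑' k, len k * N r k := by rw [hΛ]; ring
            _ ≤ 4 * Real.pi ^ 2 * ν * (∑' k, len k ^ 2 * N r k) + c * ∑' k, N r k := h7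
            _ ≤ 4 * Real.pi ^ 2 * ν * (∑ k ∈ A, len k ^ 2 * N r k + τ) + c * M' := by
                refine add_le_add (mul_le_mul_of_nonneg_left h5 (by positivity))
                  (mul_le_mul_of_nonneg_left hY0 hc0.le)
            _ = _ := by ring
      have hI : IntervalIntegrable (fun r => ∑ k ∈ A, len k ^ 2 * N r k) volume t₀ t :=
        ii_sum fun k _ => (hic k).const_mul _
      rw [intervalIntegral.integral_add (hI.const_mul _) intervalIntegrable_const,
        intervalIntegral.integral_const_mul, intervalIntegral.integral_const, smul_eq_mul] at h3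
      have h8 : ∑ k ∈ A, N t₀ k ≤ M := by
        refine le_trans (Finset.sum_le_sum fun k _ => ?_) (hb A)
        simp only [hN, hw, sub_self, zero_mul]
        exact mul_le_of_le_one_left (norm_nonneg _) (E_zero_le hε)
      have e : (t - t₀) * (4 * Real.pi ^ 2 * ν * τ + c * M')
          = (t - t₀) * (c * M') + (t - t₀) * (4 * Real.pi ^ 2 * ν) * τ := by ring
      rw [e] at h3
      linarith
    have hlim : Tendsto (fun A : Finset K3 => M + (t - t₀) * (c * M')
        + (t - t₀) * (4 * Real.pi ^ 2 * ν) * ∑' k : {k // k ∉ A}, b2 k) atTop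
        (𝓝 (M + (t - t₀) * (c * M') + (t - t₀) * (4 * Real.pi ^ 2 * ν) * 0)) :=
      tendsto_const_nhds.add ((tendsto_tsum_compl_atTop_zero b2).const_mul _)
    rw [mul_zero, add_zero] at hlim
    exact le_of_tendsto_of_tendsto (hs0 t (ht₀.trans htt)).hasSum hlim
      (Eventually.of_forall main)
  -- continuity argument
  intro t ht
  by_contra hcon
  push Not at hcon
  set Y : ℝ → ℝ := fun t => ∑' k, N t k with hY
  have hYt : M' < Y t := hcon
  have hYt0 : Y t₀ ≤ M + 0 := by
    have h1 := (hs0 t₀ ht₀)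
    have : Y t₀ ≤ M := by
      refine Real.tsum_le_of_sum_le (hN0 t₀) fun A => ?_
      refine le_trans (Finset.sum_le_sum fun k _ => ?_) (hb A)
      simp only [hN, hw, sub_self, zero_mul]
      exact mul_le_of_le_one_left (norm_nonneg _) (E_zero_le hε)
    linarith
  have hYc' : ContinuousOn Y (Icc t₀ t) := hYc.mono fun r hr => ht₀.trans hr.1
  -- the first time where `Y` reaches `M'`
  set S : Set ℝ := {r | r ∈ Icc t₀ t ∧ M' ≤ Y r} with hS
  have hSc : IsClosed S := by
    have : S = Icc t₀ t ∩ Y ⁻¹' (Ici M') := rfl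
    rw [this]
    exact hYc'.preimage_isClosed_of_isClosed isClosed_Icc isClosed_Ici
  have hSn : S.Nonempty := ⟨t, ⟨ht.1, le_rfl⟩, hYt.le⟩
  have hSb : BddBelow S := ⟨t₀, fun r hr => hr.1.1⟩
  have hr1 : sInf S ∈ S := hSc.csInf_mem hSn hSb
  set r₁ := sInf S with hr₁
  have h1 : ∀ r ∈ Icc t₀ r₁, Y r ≤ M' := by
    intro r hr
    rcases eq_or_lt_of_le hr.2 with h | h
    · -- at `r₁` itself: limit from the left
      have hne : t₀ < r₁ := by
        rcases eq_or_lt_of_le hr1.1.1 with h' | h'
        · exfalso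
          have := hr1.2
          rw [← h'] at this
          linarith
        · exact h'
      rw [h]
      have hcw : ContinuousWithinAt Y (Iio r₁) r₁ := by
        have h2 : ContinuousWithinAt Y (Icc t₀ r₁) r₁ :=
          (hYc' r₁ hr1.1).mono (Icc_subset_Icc_right hr1.1.2)
        have h3 : ContinuousWithinAt Y (Ico t₀ r₁) r₁ := h2.mono Ico_subset_Icc_self
        exact h3.mono_of_mem_nhdsWithin (Ico_mem_nhdsLT hne)
      refine le_of_tendsto hcw ?_
      filter_upwards [Ico_mem_nhdsLT hne] with q hq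
      by_contra hq'
      push Not at hq'
      have : q ∈ S := ⟨⟨hq.1, hq.2.le.trans hr1.1.2⟩, hq'.le⟩
      exact absurd (csInf_le hSb this) (not_le.mpr hq.2)
    · by_contra hq'
      push Not at hq'
      have : r ∈ S := ⟨⟨hr.1, h.le.trans hr1.1.2⟩, hq'.le⟩
      exact absurd (csInf_le hSb this) (not_le.mpr h)
  have h2 := key r₁ hr1.1.1 h1
  have h3 : (r₁ - t₀) * (c * M') ≤ T * (c * M') := by
    refine mul_le_mul_of_nonneg_right ?_ (by positivity)
    have := hr1.1.2
    have := ht.2
    linarith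
  have h4 := hr1.2
  have h5 : Y r₁ ≤ M + 1 / 2 := by
    have : Y r₁ = ∑' k, N r₁ k := rfl
    linarith
  linarith

/-- **Piece P4.** -/
theorem stmSmooth : StmSmooth := by
  intro ν hν M τ hτ
  have hpi := Real.pi_pos
  set M₀ : ℝ := max M 0 with hM₀
  have hM₀0 : 0 ≤ M₀ := le_max_right _ _
  set Λ : ℝ := 1 + 144 * Real.pi * (2 * M₀ + 1) with hΛ
  set c : ℝ := Λ ^ 2 / (16 * Real.pi ^ 2 * ν) with hc
  have hΛ0 : 0 < Λ := by rw [hΛ]; positivity
  have hc0 : 0 < c := by rw [hc]; positivity
  have hcM : 0 < c * (2 * M₀ + 1) := by positivity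
  set T : ℝ := min τ (1 / (2 * (c * (2 * M₀ + 1)))) with hT
  have hT0 : 0 < T := lt_min hτ (by positivity)
  have hT1 : T * (c * (2 * M₀ + 1)) ≤ 1 / 2 := by
    have h1 : T ≤ 1 / (2 * (c * (2 * M₀ + 1))) := min_le_right _ _
    calc T * (c * (2 * M₀ + 1)) ≤ 1 / (2 * (c * (2 * M₀ + 1))) * (c * (2 * M₀ + 1)) :=
          mul_le_mul_of_nonneg_right h1 hcM.le
      _ = 1 / 2 := by field_simp
  refine ⟨T, hT0, 2 * (2 * M₀ + 1), ?_⟩
  intro a H s hs hb t hst k
  have hTτ : T ≤ τ := min_le_left _ _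
  have ht₀ : 0 ≤ t - T := by linarith
  have hb' : ∀ A : Finset K3, ∑ k ∈ A, ‖a (t - T) k‖ ≤ M₀ := fun A =>
    (hb (t - T) (by linarith) A).trans (le_max_left _ _)
  set ε : ℝ := Real.exp (-(T * len k)) with hε
  have hε0 : 0 < ε := Real.exp_pos _
  have hε1 : ε ≤ 1 := Real.exp_le_one_iff.mpr (by
    have := mul_nonneg hT0.le (len_nonneg k)
    linarith)
  have h1 := smooth_aux hν H hM₀0 ht₀ hb' hΛ hc hT0.le hT1 hε0 hε1 t ⟨by linarith, by linarith⟩
  have e : t - (t - T) = T := by ring
  rw [e] at h1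
  obtain ⟨μ, hμ, C, hC⟩ := H.dec
  have hC' := hC t (by linarith)
  have hsum : Summable fun l => E ε (T * len l) * ‖a t l‖ := by
    refine Summable.of_nonneg_of_le (fun l => mul_nonneg (E_pos hε0 _).le (norm_nonneg _))
      (fun l => ?_) (((summable_exp_len hμ).mul_left C).mul_left ε⁻¹)
    exact mul_le_mul (E_le hε0 _) (hC' l) (norm_nonneg _) (by positivity)
  have h2 : E ε (T * len k) * ‖a t k‖ ≤ 2 * M₀ + 1 :=
    (hsum.le_tsum k fun l _ => mul_nonneg (E_pos hε0 _).le (norm_nonneg _)).trans h1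
  have h3 : E ε (T * len k) = (2 * ε)⁻¹ := by
    rw [E, ← hε]
    congr 1
    ring
  rw [h3, inv_mul_le_iff₀ (by positivity)] at h2
  calc ‖a t k‖ ≤ 2 * ε * (2 * M₀ + 1) := h2
    _ = 2 * (2 * M₀ + 1) * Real.exp (-(T * len k)) := by rw [← hε]; ring

end Pool.Agent.Run7.h744.GS
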